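import Mathlib
import Pool.Agent.R3.Stmts

/-!
# Row GEN: from the connected case to all permutations
-/

set_option autoImplicit false

namespace Pool.Agent.R3.H60

open Pool.Agent.R3

theorem ct_eq_sum {V : Type} [Fintype V] [DecidableEq V] (l : V → Fin 3) (j : Fin 3) :
    ct l j = ∑ v : V, if l v = j then 1 else 0 := by
  unfold ct
  rw [Finset.card_filter]

theorem ct_sum {V : Type} [Fintype V] [DecidableEq V] (l : V → Fin 3) :
    ct l 0 + ct l 1 + ct l 2 = Fintype.card V := by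
  rw [ct_eq_sum, ct_eq_sum, ct_eq_sum, ← Finset.sum_add_distrib, ← Finset.sum_add_distrib]
  have h : ∀ v : V, (((if l v = 0 then 1 else 0) + if l v = 1 then 1 else 0) +
      if l v = 2 then 1 else 0) = 1 := by
    intro v
    generalize l v = j
    fin_cases j <;> simp
  rw [Finset.sum_congr rfl (fun v _ => h v)]
  simp

theorem glue {V : Type} [Fintype V] [DecidableEq V] (dri : DriStmt)
    (ih : ∀ (U : Type) [Fintype U] [DecidableEq U] (σ : Fin 3 → Equiv.Perm U),
      Fintype.card U < Fintype.card V → σ 0 = 1 → ∀ a₁ a₂ : ℕ, a₁ + a₂ + 1 ≤ Fintype.card U →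
      ∃ l x y, NP σ l x y ∧ ct l 1 = a₁ ∧ ct l 2 = a₂)
    (σ : Fin 3 → Equiv.Perm V) (h0 : σ 0 = 1) (a₁ a₂ : ℕ) (ha : a₁ + a₂ + 1 ≤ Fintype.card V)
    (Z : V → Prop) [DecidablePred Z] (hne : ∃ v, Z v) (hcl : ∀ j v, Z (σ j v) ↔ Z v)
    (hsm : 2 * Fintype.card {v // Z v} ≤ Fintype.card V) :
    ∃ l x y, NP σ l x y ∧ ct l 1 = a₁ ∧ ct l 2 = a₂ := by
  have hcard : Fintype.card {v // Z v} + Fintype.card {v // ¬ Z v} = Fintype.card V := by
    have h := Fintype.sum_subtype_add_sum_subtype Z (fun _ : V => 1)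
    simpa using h
  have hZpos : 0 < Fintype.card {v // Z v} := by
    obtain ⟨v, hv⟩ := hne
    exact Fintype.card_pos_iff.2 ⟨⟨v, hv⟩⟩
  obtain ⟨lZ, hPF, hct⟩ := dri {v // Z v} (fun j => (σ j).subtypePerm (hcl j))
    ![Fintype.card V - 1 - a₁ - a₂, a₁, a₂] (by simp; omega)
  have hc0 := hct 0
  have hc1 := hct 1
  have hc2 := hct 2
  simp only [Matrix.cons_val_zero, Matrix.cons_val_one, Matrix.cons_val] at hc0 hc1 hc2
  have hsZ := ct_sum lZ
  obtain ⟨lC, x, y, hNP, h1, h2⟩ := ih {v // ¬ Z v}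
    (fun j => (σ j).subtypePerm (fun v => not_congr (hcl j v))) (by omega)
    (by ext v; simp [h0]) (a₁ - ct lZ 1) (a₂ - ct lZ 2) (by omega)
  obtain ⟨L, hlZ, hlC⟩ : ∃ L : V → Fin 3, (∀ v (h : Z v), L v = lZ ⟨v, h⟩) ∧
      ∀ v (h : ¬ Z v), L v = lC ⟨v, h⟩ :=
    ⟨fun v => if h : Z v then lZ ⟨v, h⟩ else lC ⟨v, h⟩, fun v h => dif_pos h,
      fun v h => dif_neg h⟩
  have hctl : ∀ j, ct L j = ct lZ j + ct lC j := by
    intro j
    rw [ct_eq_sum, ct_eq_sum, ct_eq_sum, ← Fintype.sum_subtype_add_sum_subtype Z]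
    congr 1
    · refine Finset.sum_congr rfl fun v _ => ?_
      rw [hlZ v.1 v.2]
    · refine Finset.sum_congr rfl fun v _ => ?_
      rw [hlC v.1 v.2]
  obtain ⟨hx, hy, hinj⟩ := hNP
  refine ⟨L, x.1, y.1, ⟨?_, ?_, ?_⟩, ?_, ?_⟩
  · rw [hlC x.1 x.2]
    exact hx
  · intro v hv
    unfold ph
    by_cases h : Z v
    · rw [hlZ v h]
      intro he
      have h3 : Z (σ (lZ ⟨v, h⟩) v) := (hcl _ v).2 h
      rw [he] at h3
      exact y.2 h3
    · rw [hlC v h]
      intro he
      refine hy ⟨v, h⟩ (fun h3 => hv ?_) ?_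
      · rw [← h3]
      · apply Subtype.ext
        exact he
  · intro v w hv hw hvw
    unfold ph at hvw
    by_cases h : Z v
    · by_cases h' : Z w
      · rw [hlZ v h, hlZ w h'] at hvw
        have h3 := @hPF ⟨v, h⟩ ⟨w, h'⟩ (Subtype.ext hvw)
        exact congrArg Subtype.val h3
      · rw [hlZ v h, hlC w h'] at hvw
        have h3 : Z (σ (lZ ⟨v, h⟩) v) := (hcl _ v).2 h
        rw [hvw] at h3
        exact absurd ((hcl _ w).1 h3) h'
    · by_cases h' : Z w
      · rw [hlC v h, hlZ w h'] at hvw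
        have h3 : Z (σ (lZ ⟨w, h'⟩) w) := (hcl _ w).2 h'
        rw [← hvw] at h3
        exact absurd ((hcl _ v).1 h3) h
      · rw [hlC v h, hlC w h'] at hvw
        have h3 := hinj ⟨v, h⟩ ⟨w, h'⟩ (fun h3 => hv (congrArg Subtype.val h3))
          (fun h3 => hw (congrArg Subtype.val h3)) (Subtype.ext hvw)
        exact congrArg Subtype.val h3
  · rw [hctl, h1]
    omega
  · rw [hctl, h2]
    omega

/-- Row GEN. -/
theorem gen (con : ConStmt) (dri : DriStmt) : GenStmt := by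
  have key : ∀ n : ℕ, ∀ (V : Type) [Fintype V] [DecidableEq V] (σ : Fin 3 → Equiv.Perm V),
      Fintype.card V = n → σ 0 = 1 → ∀ a₁ a₂ : ℕ, a₁ + a₂ + 1 ≤ Fintype.card V →
      ∃ l x y, NP σ l x y ∧ ct l 1 = a₁ ∧ ct l 2 = a₂ := by
    intro n
    induction n using Nat.strong_induction_on with
    | _ n ih =>
      intro V _ _ σ hn h0 a₁ a₂ ha
      have ih' : ∀ (U : Type) [Fintype U] [DecidableEq U] (σ : Fin 3 → Equiv.Perm U),
          Fintype.card U < Fintype.card V → σ 0 = 1 → ∀ a₁ a₂ : ℕ,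
          a₁ + a₂ + 1 ≤ Fintype.card U →
          ∃ l x y, NP σ l x y ∧ ct l 1 = a₁ ∧ ct l 2 = a₂ := by
        intro U _ _ τ hU hτ b₁ b₂ hb
        exact ih (Fintype.card U) (hn ▸ hU) U τ rfl hτ b₁ b₂ hb
      by_cases hc : Conn σ
      · exact con V σ h0 hc a₁ a₂ ha
      · unfold Conn at hc
        push Not at hc
        obtain ⟨Z, hZ, hcl, hne⟩ := hc
        classical
        have hclZ : ∀ j v, σ j v ∈ Z ↔ v ∈ Z := by
          intro j v
          refine ⟨fun h => ?_, fun h => hcl v h j⟩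
          have hsub : Z.image (σ j) ⊆ Z := by
            rintro _ ⟨u, hu, rfl⟩
            exact hcl u hu j
          have heq : (σ j) '' Z = Z :=
            Set.eq_of_subset_of_ncard_le hsub
              (by rw [Set.ncard_image_of_injective Z (σ j).injective]) (Set.toFinite Z)
          rw [← heq] at h
          obtain ⟨u, hu, he⟩ := h
          exact (σ j).injective he ▸ hu
        have hcard : Fintype.card {v // v ∈ Z} + Fintype.card {v // ¬ v ∈ Z} =
            Fintype.card V := by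
          have h := Fintype.sum_subtype_add_sum_subtype (fun v => v ∈ Z) (fun _ : V => 1)
          simpa using h
        by_cases hs : 2 * Fintype.card {v // v ∈ Z} ≤ Fintype.card V
        · exact glue dri ih' σ h0 a₁ a₂ ha (fun v => v ∈ Z) hZ hclZ hs
        · refine glue dri ih' σ h0 a₁ a₂ ha (fun v => ¬ v ∈ Z) ?_
            (fun j v => not_congr (hclZ j v)) (by omega)
          by_contra h
          push Not at h
          exact hne (Set.eq_univ_of_forall h)
  intro V _ _ σ h0 a₁ a₂ ha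
  exact key _ V σ rfl h0 a₁ a₂ ha

end Pool.Agent.R3.H60
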