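import Mathlib
import Pool.Agent.R3.Stmts

/-!
# Row CON: the connected case
-/

set_option autoImplicit false
set_option linter.unusedSectionVars false

namespace Pool.Agent.R3.H60

open Pool.Agent.R3

variable {V : Type} [Fintype V] [DecidableEq V]

theorem np_self {σ : Fin 3 → Equiv.Perm V} (h0 : σ 0 = 1) {l : V → Fin 3} (hl : PF σ l) {v : V}
    (hv : l v = 0) : NP σ l v v := by
  have hph : ph σ l v = v := by
    unfold ph
    rw [hv, h0]
    rfl
  refine ⟨hv, fun w hw he => hw ?_, fun a c _ _ h => hl h⟩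
  apply hl
  rw [he, hph]

theorem ph_update_ne (σ : Fin 3 → Equiv.Perm V) (l : V → Fin 3) {v w : V} (h : w ≠ v)
    (j : Fin 3) : ph σ (Function.update l v j) w = ph σ l w := by
  unfold ph
  rw [Function.update_of_ne h]

theorem np_erase {σ : Fin 3 → Equiv.Perm V} {l : V → Fin 3} (hl : PF σ l) (v : V) :
    NP σ (Function.update l v 0) v (ph σ l v) := by
  refine ⟨Function.update_self _ _ _, fun w hw he => hw ?_, fun a c ha hc h => ?_⟩
  · rw [ph_update_ne σ l hw] at he
    exact hl he
  · rw [ph_update_ne σ l ha, ph_update_ne σ l hc] at h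
    exact hl h

theorem ct_erase (l : V → Fin 3) (v : V) {j : Fin 3} (hj : j ≠ 0) :
    (ct (Function.update l v 0) j : ℤ) = ct l j - if l v = j then 1 else 0 := by
  unfold ct
  have h : (Finset.univ.filter (fun w => Function.update l v 0 w = j)) =
      (Finset.univ.filter (fun w => l w = j)).erase v := by
    ext w
    rcases eq_or_ne w v with rfl | hw
    · simp [hj.symm]
    · simp [hw]
  rw [h]
  split_ifs with h1
  · have hmem : v ∈ Finset.univ.filter (fun w => l w = j) := by simp [h1]
    have h2 := Finset.card_erase_add_one hmem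
    omega
  · rw [Finset.erase_eq_of_notMem (by simp [h1])]
    simp

theorem exists_zero {l : V → Fin 3} (h : ct l 1 + ct l 2 < Fintype.card V) : ∃ v, l v = 0 := by
  by_contra hcon
  push Not at hcon
  have hle : Fintype.card V ≤ ct l 1 + ct l 2 := by
    unfold ct
    rw [← Finset.card_univ]
    refine le_trans (Finset.card_le_card ?_) (Finset.card_union_le _ _)
    intro v _
    have h1 := hcon v
    rw [Finset.mem_union, Finset.mem_filter, Finset.mem_filter]
    generalize l v = j at h1
    fin_cases j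
    · exact absurd rfl h1
    · left
      simp
    · right
      simp
  omega

theorem exists_lab {l : V → Fin 3} {j : Fin 3} (h : 0 < ct l j) : ∃ v, l v = j := by
  unfold ct at h
  obtain ⟨v, hv⟩ := Finset.card_pos.1 h
  exact ⟨v, (Finset.mem_filter.1 hv).2⟩

theorem con_fin (rea : ReaStmt) (wlk : WlkStmt) {σ : Fin 3 → Equiv.Perm V} (hc : Conn σ)
    {b c : ℤ} {d : ℤ × ℤ} (hC : Ctx σ b c d) (hb : 1 ≤ b) (hc1 : 1 ≤ c)
    (hn : b + c + 1 ≤ (Fintype.card V : ℤ)) : False := by
  have hX : ∀ M, XM σ b c M := by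
    intro M
    induction M with
    | zero =>
      intro l _ hnu f g hf _
      exfalso
      unfold nu at hnu
      rw [Nat.le_zero, Finset.card_eq_zero, Finset.filter_eq_empty_iff] at hnu
      exact hnu (Finset.mem_univ f) hf
    | succ M ih => exact rea V σ b c d hC hc M ih
  exact wlk V σ b c d hC hX hb hc1 hn

/-- a constant labelling, a row removed -/
theorem con_const (σ : Fin 3 → Equiv.Perm V) (x : V) (j : Fin 3) :
    NP σ (Function.update (fun _ => j) x 0) x (σ j x) := by
  have hl : PF σ (fun _ => j) := fun v w h => (σ j).injective h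
  exact np_erase hl x

theorem ct_const (x : V) {j i : Fin 3} (hi : i ≠ 0) :
    (ct (Function.update (fun _ : V => j) x 0) i : ℤ) =
      if j = i then (Fintype.card V : ℤ) - 1 else 0 := by
  rw [ct_erase _ _ hi]
  unfold ct
  split_ifs with h
  · simp [h]
  · simp [h]

/-- Row CON. -/
theorem con (rea : ReaStmt) (wlk : WlkStmt) : ConStmt := by
  intro V _ _ σ h0 hc a₁ a₂ ha
  obtain ⟨x⟩ : Nonempty V := Fintype.card_pos_iff.1 (by omega)
  by_contra hcon
  have hmiss : ∀ l x y, NP σ l x y → pt l ≠ ((a₁ : ℤ), (a₂ : ℤ)) := by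
    intro l x y hl he
    have e1 : (ct l 1 : ℤ) = a₁ := congrArg Prod.fst he
    have e2 : (ct l 2 : ℤ) = a₂ := congrArg Prod.snd he
    exact hcon ⟨l, x, y, hl, by exact_mod_cast e1, by exact_mod_cast e2⟩
  have hconst : ∀ j : Fin 3, ¬ ((a₁ : ℤ) = (if j = 1 then (Fintype.card V : ℤ) - 1 else 0) ∧
      (a₂ : ℤ) = (if j = 2 then (Fintype.card V : ℤ) - 1 else 0)) := by
    intro j hj
    refine hmiss _ _ _ (con_const σ x j) ?_
    unfold pt
    rw [ct_const x (by decide), ct_const x (by decide), ← hj.1, ← hj.2]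
  have k0 := hconst 0
  have k1 := hconst 1
  have k2 := hconst 2
  simp at k0 k1 k2
  rcases Nat.eq_zero_or_pos a₁ with h1 | h1
  · -- `b = 1`, `c = a₂`
    refine con_fin rea wlk (σ := σ) hc (b := 1) (c := a₂) (d := ((a₁ : ℤ), (a₂ : ℤ)))
      ⟨h0, ?_, hmiss, ?_⟩ le_rfl (by omega) (by omega)
    · right; left
      rw [h1]
      simp
    · intro l hl he
      have e1 : (ct l 1 : ℤ) = 1 := congrArg Prod.fst he
      have e2 : (ct l 2 : ℤ) = a₂ := congrArg Prod.snd he
      obtain ⟨v, hv⟩ := exists_lab (l := l) (j := 1) (by omega)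
      refine hmiss _ _ _ (np_erase hl v) ?_
      unfold pt
      rw [ct_erase _ _ (by decide), ct_erase _ _ (by decide), hv, e1, e2, h1]
      simp
  · rcases Nat.eq_zero_or_pos a₂ with h2 | h2
    · refine con_fin rea wlk (σ := σ) hc (b := a₁) (c := 1) (d := ((a₁ : ℤ), (a₂ : ℤ)))
        ⟨h0, ?_, hmiss, ?_⟩ (by omega) le_rfl (by omega)
      · right; right
        rw [h2]
        simp
      · intro l hl he
        have e1 : (ct l 1 : ℤ) = a₁ := congrArg Prod.fst he
        have e2 : (ct l 2 : ℤ) = 1 := congrArg Prod.snd he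
        obtain ⟨v, hv⟩ := exists_lab (l := l) (j := 2) (by omega)
        refine hmiss _ _ _ (np_erase hl v) ?_
        unfold pt
        rw [ct_erase _ _ (by decide), ct_erase _ _ (by decide), hv, e1, e2, h2]
        simp
    · refine con_fin rea wlk (σ := σ) hc (b := a₁) (c := a₂) (d := ((a₁ : ℤ), (a₂ : ℤ)))
        ⟨h0, Or.inl rfl, hmiss, ?_⟩ (by omega) (by omega) (by omega)
      intro l hl he
      have e1 : (ct l 1 : ℤ) = a₁ := congrArg Prod.fst he
      have e2 : (ct l 2 : ℤ) = a₂ := congrArg Prod.snd he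
      obtain ⟨v, hv⟩ := exists_zero (l := l) (by omega)
      exact hmiss _ _ _ (np_self h0 hl hv) he

end Pool.Agent.R3.H60
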