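import Mathlib
import Pool.Agent.R3.Stmts

/-!
# Row DNT: down triangles
-/

set_option autoImplicit false

namespace Pool.Agent.R3.H60

open Pool.Agent.R3

theorem dnt : DntStmt := by
  rintro b c ⟨p, q⟩ i j m hp
  have h : p ≠ b ∨ q ≠ c := by
    by_contra h
    push Not at h
    exact hp (by rw [h.1, h.2])
  fin_cases i <;> fin_cases j <;> fin_cases m <;>
    simp [om, ind, dl] <;> split_ifs <;> simp <;> omega

end Pool.Agent.R3.H60
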